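import Pool.Agent.Q59.PL.Uni

/-!
# Tate classes of bounded codimension on all abelian varieties of Fermat type over number fields

Let `k` be a number field, `ℓ` a prime. The `ℓ`-adic cohomology of the Fermat hypersurface of degree `m` and
dimension `n` over `k` (with coefficients in `ℚ_ℓ(μ_m)`, and over `k(μ_m)`) is, up to the classes of linear
sections, a sum of lines indexed by the multisets `s` with `n + 2` elements of nonzero residues modulo
`m` of sum zero, on which the Galois group acts by a Hecke character given by Jacobi sums (Weil). The
line of `s` consists of Tate classes (fixed by an open subgroup up to the twist) if and only if `s` is a Hodge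
character, i.e. the number of its elements is an even number `2 k` and the sum of `<t a / m>` is `k` for
all units `t` (Stickelberger; Pohlmann: Hodge and Tate classes agree for complex multiplication). For every
`m` let `A m` be the family of the characters `s` whose line is spanned by classes of algebraic cycles. These
families have the properties of `Admissible` below (Shioda, Katsura, Aoki), and they are compatible in
the sense of `System`: by pull-back and push-forward along `x_i ↦ x_i ^ N` the line of `s` in degree
`m` is algebraic if and only if the line of `N s` in degree `N m` is.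

Let `X` be an abelian variety of Fermat type over `k`: over an extension it is isogenous to a factor of a
product of Jacobians of Fermat curves of any degrees; let `m` be a common multiple of the degrees. Then
`H^1(X)` is a sum of lines indexed by triples `{a, b, c}` of residues modulo `m` of sum zero, and the line of
`H^(2k)(X)(k)` given by `2 k` such lines consists of Tate classes (of algebraic classes) if and only if the
union of the `2 k` triples, a multiset with `6 k` entries, is a Hodge character (lies in `A m`).

The theorem: let `N` be any natural number and let `M = 4 * ∏ p`, the product over the odd primes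
`p ≤ 4 N + 1`. There is a set `F` of at most `2 ^ (π(4 N + 1) - 1) - 1` Hodge characters of the single
degree `M`, each with at most `π(4 N + 1) * M` entries, such that every system which contains `F`
contains all Hodge characters with at most `N` entries of ALL degrees.

Hence for every `i` the Tate conjecture in codimension at most `i` for all abelian varieties of
Fermat type over all number fields, of all dimensions and of all degrees, and for all `ℓ`, follows from the
algebraicity of finitely many explicit Tate classes (`N = 6 i`). (The hand-in
`MP_9d7ff6_ag.FermatFiniteDetermination` treats the classes of all codimensions for the degrees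
composed of finitely many given primes; here the codimension is bounded and the degrees are arbitrary.)
-/

namespace Pool.Agent.Results.MP_90d181_ag.FermatTypeBoundedCodimension

open Pool.Agent.H916R2

/-- The closure properties of the family of the characters of algebraic classes of degree `m`. -/
structure Admissible (m : ℕ) (A : Multiset (ZMod m) → Prop) : Prop where
  /-- members are Hodge characters -/
  hodge : ∀ s, A s → IsHodge m s
  /-- conjugation -/
  neg : ∀ s, A s → A (s.map fun a => -a)
  /-- pairs -/
  pair : ∀ a : ZMod m, a ≠ 0 → A {a, -a}
  /-- standard characters for odd primes -/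
  standard : ∀ p : ℕ, p.Prime → p ≠ 2 → p ∣ m → ∀ a : ZMod m, (p : ZMod m) * a ≠ 0 →
    A (-((p : ZMod m) * a) ::ₘ
      (Multiset.range p).map fun i : ℕ => a + (i : ZMod m) * ((m / p : ℕ) : ZMod m))
  /-- standard characters for the prime two -/
  standardTwo : 2 ∣ m → ∀ a : ZMod m, 2 * a ≠ 0 →
    A {a, a + ((m / 2 : ℕ) : ZMod m), -(2 * a), ((m / 2 : ℕ) : ZMod m)}
  /-- closed under union -/
  join : ∀ s t, A s → A t → A (s + t)
  /-- closed under removal of a pair -/
  cancel : ∀ a s, A (a ::ₘ -a ::ₘ s) → A s

/-- Admissible families of all degrees, compatible with the multiplications by positive integers. -/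
structure System (A : (m : ℕ) → Multiset (ZMod m) → Prop) : Prop where
  /-- every family is admissible -/
  admissible : ∀ m : ℕ, 0 < m → Admissible m (A m)
  /-- pull-back and push-forward along `x_i ↦ x_i ^ N` -/
  level : ∀ N m M : ℕ, 0 < M → N * m = M → ∀ s : Multiset (ZMod m),
    A m s ↔ A M (s.map fun a => ((N * a.val : ℕ) : ZMod M))

/-- `4` times the product of the odd primes `p ≤ 4 N + 1`. -/
def degree (N : ℕ) : ℕ :=
  4 * ∏ p ∈ (Finset.range (4 * N + 2)).filter (fun p => p.Prime ∧ p ≠ 2), p

lemma degree_pos (N : ℕ) : 0 < degree N := by
  unfold degree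
  refine Nat.mul_pos (by norm_num) (Finset.prod_pos fun p hp => ?_)
  exact (Finset.mem_filter.mp hp).2.1.pos

lemma dvd_degree {N p : ℕ} (hp : p.Prime) (h : p ≤ 4 * N + 1) : p ∣ degree N := by
  unfold degree
  by_cases h2 : p = 2
  · rw [h2]; exact Dvd.dvd.mul_right (by norm_num) _
  · refine Dvd.dvd.mul_left (Finset.dvd_prod_of_mem _ ?_) 4
    exact Finset.mem_filter.mpr ⟨Finset.mem_range.mpr (by omega), hp, h2⟩

lemma card_primeFactors {N : ℕ} (hN : 0 < N) :
    (degree N).primeFactors.card ≤ Nat.primeCounting (4 * N + 1) := by
  unfold Nat.primeCounting Nat.primeCounting'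
  rw [Nat.count_eq_card_filter_range]
  refine Finset.card_le_card fun p hp => ?_
  obtain ⟨h1, h2, -⟩ := Nat.mem_primeFactors.mp hp
  refine Finset.mem_filter.mpr ⟨?_, h1⟩
  unfold degree at h2
  rcases h1.dvd_mul.mp h2 with h3 | h3
  · have h4 : p = 2 := by
      have : p ∣ 2 ^ 2 := h3
      exact (Nat.prime_dvd_prime_iff_eq h1 Nat.prime_two).mp (h1.dvd_of_dvd_pow this)
    rw [h4, Finset.mem_range]
    omega
  · obtain ⟨r, hr, hpr⟩ := (Nat.Prime.prime h1).exists_mem_finset_dvd h3
    obtain ⟨h5, h6, -⟩ := Finset.mem_filter.mp hr
    rw [(Nat.prime_dvd_prime_iff_eq h1 h6).mp hpr]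
    rw [Finset.mem_range] at h5 ⊢
    omega

/-- Finite determination for Hodge characters of bounded size in all degrees. -/
theorem result (N : ℕ) :
    ∃ F : Finset (Multiset (ZMod (degree N))),
      F.card ≤ 2 ^ (Nat.primeCounting (4 * N + 1) - 1) - 1 ∧
      (∀ f ∈ F, IsHodge (degree N) f ∧
        Multiset.card f ≤ Nat.primeCounting (4 * N + 1) * degree N) ∧
      ∀ A : (m : ℕ) → Multiset (ZMod m) → Prop, System A → (∀ f ∈ F, A (degree N) f) →
        ∀ m : ℕ, 0 < m → ∀ s : Multiset (ZMod m), IsHodge m s → Multiset.card s ≤ N → A m s := by
  have hsys : ∀ A : (m : ℕ) → Multiset (ZMod m) → Prop, System A →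
      Pool.Agent.Q59.RL.AdmSys A := by
    intro A hA
    refine ⟨fun m hm => ?_, fun N m M hM h s => hA.level N m M hM h s⟩
    have h := hA.admissible m hm
    exact ⟨h.hodge, h.neg, h.pair, h.standard, h.standardTwo, h.join, h.cancel⟩
  rcases Nat.eq_zero_or_pos N with rfl | hN
  · refine ⟨∅, by simp, fun f hf => absurd hf (Finset.notMem_empty f), fun A hA _ m hm s _ hs => ?_⟩
    rw [Multiset.card_eq_zero.mp (Nat.le_zero.mp hs)]
    exact (hsys A hA).empty hm
  · obtain ⟨F, h1, h2, h3⟩ := Pool.Agent.Q59.PL.bounded_determination N (degree N) (degree_pos N)
      (Dvd.intro _ rfl) (fun p hp h => dvd_degree hp h)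
    have hc : (Pool.Agent.Q59.RL.levels (degree N)).card ≤ Nat.primeCounting (4 * N + 1) :=
      (Finset.card_filter_le _ _).trans (card_primeFactors hN)
    refine ⟨F, h1.trans ?_, fun f hf => ⟨(h2 f hf).1, (h2 f hf).2.trans ?_⟩, fun A hA =>
      h3 A (hsys A hA)⟩
    · exact Nat.sub_le_sub_right (Nat.pow_le_pow_right (by norm_num) (Nat.sub_le_sub_right hc 1)) 1
    · exact Nat.mul_le_mul_right _ (card_primeFactors hN)

end Pool.Agent.Results.MP_90d181_ag.FermatTypeBoundedCodimension
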