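import Pool.Agent.Q60.MV.Ctr

/-!
# The Tate conjecture for all powers of an abelian variety is decided by one tensor power of `H^1`

Let `A` be an abelian variety of dimension `g ≥ 1` over a number field, `l` a prime number and
`V = H^1(A)`. Suppose that `A` has, over the algebraic closure, no factor of type IV. Put
`N = (2 g) ^ 3`.

If the Tate classes in the tensor power `V ⊗ ... ⊗ V` with `N` factors, a part of `H^N(A ^ N)`, are
algebraic, then the Tate conjecture holds for all powers of `A` in all codimensions. So for the
infinitely many varieties `A ^ n` and for all codimensions the Tate conjecture is one statement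
about the classes of codimension `4 g ^ 3` on `A ^ (8 g ^ 3)`.

The theorem is proved for every variety `A` in a Weil cohomology with an action of a group, with the
following properties of abelian varieties: the cohomology ring is generated in degree one; hard
Lefschetz holds for a divisor `D`; the representations on `H^n(A ^ n)` for `n ≤ 6` are semisimple
(Faltings).

The proof: semisimplicity and the Tate classes of degree at most six determine the Lie algebra of
the image of the Galois group, since there are no skew elements in the centre. So the image has
finite index in the group of the algebraic classes, and its Zariski closure is detected by the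
tensors of degree at most `N`. From the tensor power with `N` factors one goes down by contractions
with the form `tr (D ^ (g - 1) · x · y)`, which preserve algebraic classes. By semisimplicity the Tate classes on `A ^ n` are sums of
images of Tate classes in the tensor powers of `V`.
-/

open CategoryTheory AlgebraicGeometry

universe u w

namespace Pool.Agent.Results.MP_90d181_ag.OneTensorPowerDecides

open Pool.Agent.H914
open Pool.Agent.Q55 (GaloisAction TateConj)
open Pool.Agent.Q60.TD (SemisimpleAt)
open Pool.Agent.Q60.MV (GeneratedInDegreeOne NoTypeIV TateConjIn pow)

variable {k : Type u} [Field k] {𝒱 : VarClass k} {ops : CycleOps 𝒱}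
  {W : WeilCohomology.{u, 0} ops} {Γ : Type w} [Group Γ]

/-- **The Tate conjecture for all powers of an abelian variety** without factors of type IV is
decided by the tensor power of `H^1` with `b ^ 3` factors, where `b = dim H^1`. `pow A n` is the
product of `n` copies of `A`. -/
theorem result (G : GaloisAction W Γ) (φ : W.K →+* ℂ) (A : 𝒱.Obj)
    (hA : GeneratedInDegreeOne W A) {D : A.Cycles} (hD : A.IsCyc 1 D)
    (hL : HardLefschetz W A D) (hc : NoTypeIV G A D 1)
    (hS : ∀ n, 0 < n → n ≤ 6 → SemisimpleAt G (pow A n) n)
    (h : TateConjIn G A 1 (W.betti A 1 ^ 3)) (n : ℕ) : TateConj G (pow A n) :=
  Pool.Agent.Q60.MV.tate_ab' φ hA hD hL hc hS h n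

end Pool.Agent.Results.MP_90d181_ag.OneTensorPowerDecides
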