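import Pool.Agent.Q43.RP.DefsN
import Pool.Agent.Q43.RP.Low4

/-!
# The Tate conjecture in codimension less than `g / (2 D)` for abelian varieties with one Frobenius
# element of defect `D`

Let `A` be any abelian variety over a number field (no condition on the endomorphisms). Suppose that at
ONE place of good reduction, with residue field of `q` elements, the characteristic polynomial of the
Frobenius element is the product of the minimal polynomials of Weil numbers `π i` in CM fields `K i`,
`[K i : ℚ] ≥ 2 g` for all `i` (for instance one field of degree `2 g = 2 dim A`: the Frobenius
polynomial is irreducible). Nothing is assumed about the Galois groups of these fields, their number or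
the slopes. Let `D` be the defect: the rank of the group of the multiplicative relations between the
Frobenius eigenvalues, up to roots of unity and modulo the trivial relations
`φ (π) conj (φ (π)) = q` (`defect`); it is the difference of `dim A` and the angle rank of the
reduction.

1. If `1 ≤ m` and `2 m D < g` then, for all `n`, all Tate classes of codimension `m` on `A ^ n` are
   linear combinations of products of Tate classes of codimension one; by the theorem of Faltings
   these are classes of divisors. So the Tate conjecture holds for all powers of `A` in codimension
   `m`.
2. If `4 D < g` and the Rosati involution is trivial (all endomorphisms of `A` over the algebraic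
   closure are symmetric; for instance `End (A) = ℤ`, or `A` simple of type I) then this is true in all
   codimensions: the Tate conjecture holds for all powers of `A`.

For `D = 0` this is known for all codimensions (maximal angle rank; Zarhin). The bound in 1 is optimal:
for Mumford's fourfolds (`g = 4`, `End (A) = ℤ`) almost all places have defect one, and there are
exotic classes of codimension two on `A × A`; for abelian varieties of Weil type (`D = 1` in general)
there are exotic classes of codimension `g / 2`. The starting results of this problem and
MP_938ce2_ag `OneFrobenius` need Frobenius eigenvalues without any nontrivial relation.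

The proof: the relations span a space of functions of dimension `D` on the set of the embeddings of the
fields `K i` which is invariant under the Galois group, so the value of such a function at a point is
at most `D / (2 g)` times its norm of order one; a relation between `k` eigenvalues gives a function
with integral values and norm at most `2 k`. So relations of length `k` with `k D < g` are trivial.
Therefore the Lie algebra of the endomorphisms which annihilate all Tate classes in at most `2 m`
variables contains the diagonal elements of the symplectic Lie algebra; by semisimplicity it is a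
product of symplectic and general linear Lie algebras (over a finite extension of `ℚ_ℓ`), and the
first fundamental theorem of invariant theory gives 1. In 2 the condition is used for relations of
length four (a starting result).

In the Lean statement `V` is the rational Tate module `V_ℓ (A)` with the action `ρ` of the Galois
group, `χ` the cyclotomic character, `ω` the Weil pairing of a polarization (`IsTateModule`, with the
semisimplicity theorem of Faltings) and `γ` the Frobenius element.
-/

set_option autoImplicit false

namespace Pool.Agent.Results.MP_90d181_ag.SmallDefectPlace

open NumberField Module Pool.Agent.H204R3.GP Pool.Agent.W516.FT Pool.Agent.TH776.FM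
  Pool.Agent.TH776.FL

/-- **The Tate conjecture in codimension less than `g / (2 D)`** on all powers of an abelian variety
with one Frobenius element of defect `D`; in all codimensions if `4 D < g` and the Rosati involution
is trivial. -/
theorem result {I : Type} [Fintype I] (K : I → Type) [∀ i, Field (K i)] [∀ i, NumberField (K i)]
    [∀ i, IsCMField (K i)] (q : ℕ) (hq : 0 < q) (π : ∀ i, K i)
    (hweil : ∀ i, ∀ φ : K i →+* ℂ, ‖φ (π i)‖ ^ 2 = (q : ℝ)) (g : ℕ)
    (hg : ∀ i, 2 * g ≤ finrank ℚ (K i)) (ℓ : ℕ) [Fact ℓ.Prime]
    {V Γ : Type} [AddCommGroup V] [Module ℚ_[ℓ] V] [FiniteDimensional ℚ_[ℓ] V] [Group Γ]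
    (ρ : Representation ℚ_[ℓ] Γ V) (χ : Γ →* ℚ_[ℓ]) (ω : V →ₗ[ℚ_[ℓ]] V →ₗ[ℚ_[ℓ]] ℚ_[ℓ])
    (hA : IsTateModule ρ χ ω) (γ : Γ) (hχ : χ γ = q)
    (hγ : (ρ γ).charpoly = (∏ i, minpoly ℚ (π i)).map (algebraMap ℚ ℚ_[ℓ])) :
    (∀ m : ℕ, 1 ≤ m → 2 * m * Pool.Agent.Q43.RP.defect K π < g → GeneratedInCodimension ρ χ m) ∧
    (4 * Pool.Agent.Q43.RP.defect K π < g → RosatiTrivial ρ ω → TateGeneratedInDegreeTwo ρ χ) := by
  have hq' : (0 : ℚ) < (q : ℚ) := Nat.cast_pos.2 hq
  have hweil' : ∀ i, ∀ φ : K i →+* ℂ, ‖φ (π i)‖ ^ 2 = (((q : ℚ) : ℝ)) := by
    intro i φ
    rw [hweil]
    norm_cast
  have hD : Pool.Agent.Q43.RP.defect K π =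
      finrank ℤ (Pool.Agent.Q43.RP.relLat K π) := rfl
  refine ⟨fun m hm hmD => ?_, fun h4 hR => ?_⟩
  · refine Pool.Agent.Q43.RP.codim_low K hq' π hweil' hm
      (Pool.Agent.Q43.RP.shortFree_of_defect K hg hq' π hweil' ?_) hA (γ := γ) ?_ ?_
    · rw [← hD, mul_comm]
      exact hmD
    · rw [hχ]
      norm_cast
    · rw [hγ, Polynomial.map_prod]
  · have hsf : Pool.Agent.Q43.RP.ShortFree K (q : ℚ) π 4 :=
      Pool.Agent.Q43.RP.shortFree_of_defect K hg hq' π hweil' (by rw [← hD]; omega)
    exact tate_of_rosati hA hχ
      (Pool.Agent.Q43.RP.charpoly_separable K π hweil' (by norm_num) hsf) hγ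
      (Pool.Agent.Q43.RP.four_of_free K hq π hweil le_rfl hsf) hR

end Pool.Agent.Results.MP_90d181_ag.SmallDefectPlace
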